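import Pool.Agent.H58.FN.Targets

/-!
MP_6a7a6f_gt, board fnc_modules, row SX3: six points. The case distinction is the one of
`Pool/Agent/H65/FL/SX.lean` (helper65).
-/

set_option autoImplicit false

namespace Pool.Agent.H13.FNC

open Pool.Agent.H59 Pool.Agent.H48.FR Pool.Agent.H58.FL Pool.Agent.H30.FA Pool.Agent.H58.FM
  Pool.Agent.H58.FN

/-! ### Alternating functions of four labels -/

theorem sx3_ext {D : Fin 6 → Fin 6 → Fin 6 → Fin 6 → ℤ}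
    (a12 : ∀ a b c d, D b a c d = -D a b c d) (a23 : ∀ a b c d, D a c b d = -D a b c d)
    (a34 : ∀ a b c d, D a b d c = -D a b c d)
    (h : ∀ a b c d, a < b → b < c → c < d → D a b c d = 0) (a b c d : Fin 6) :
    D a b c d = 0 := by
  have s3 : ∀ a b c d, a < b → b < c → D a b c d = 0 := by
    intro a b c d h1 h2
    rcases lt_trichotomy c d with h3 | h3 | h3
    · exact h a b c d h1 h2 h3
    · subst h3
      have := a34 a b c c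
      omega
    · rw [a34 a b d c]
      rcases lt_trichotomy b d with h4 | h4 | h4
      · rw [h a b d c h1 h4 h3, neg_zero]
      · subst h4
        have := a23 a b b c
        omega
      · rw [a23 a d b c]
        rcases lt_trichotomy a d with h5 | h5 | h5
        · rw [h a d b c h5 h4 h2]
          simp
        · subst h5
          have := a12 a a b c
          omega
        · rw [a12 d a b c, h d a b c h5 h1 h2]
          simp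
  have s2 : ∀ a b c d, a < b → D a b c d = 0 := by
    intro a b c d h1
    rcases lt_trichotomy b c with h3 | h3 | h3
    · exact s3 a b c d h1 h3
    · subst h3
      have := a23 a b b d
      omega
    · rw [a23 a c b d]
      rcases lt_trichotomy a c with h4 | h4 | h4
      · rw [s3 a c b d h4 h3, neg_zero]
      · subst h4
        have := a12 a a b d
        omega
      · rw [a12 c a b d, s3 c a b d h4 h1]
        simp
  rcases lt_trichotomy a b with h3 | h3 | h3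
  · exact s2 a b c d h3
  · subst h3
    have := a12 a a c d
    omega
  · rw [a12 b a c d, s2 b a c d h3, neg_zero]

theorem sx3_inc {P : Fin 6 → Fin 6 → Fin 6 → Fin 6 → Prop}
    (h : P 0 1 2 3 ∧ P 0 1 2 4 ∧ P 0 1 2 5 ∧ P 0 1 3 4 ∧ P 0 1 3 5 ∧ P 0 1 4 5 ∧ P 0 2 3 4 ∧
      P 0 2 3 5 ∧ P 0 2 4 5 ∧ P 0 3 4 5 ∧ P 1 2 3 4 ∧ P 1 2 3 5 ∧ P 1 2 4 5 ∧ P 1 3 4 5 ∧
      P 2 3 4 5) (a b c d : Fin 6) (h1 : a < b) (h2 : b < c) (h3 : c < d) : P a b c d := by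
  obtain ⟨x1, x2, x3, x4, x5, x6, x7, x8, x9, x10, x11, x12, x13, x14, x15⟩ := h
  obtain ⟨a, ha⟩ := a
  obtain ⟨b, hb⟩ := b
  obtain ⟨c, hc⟩ := c
  obtain ⟨d, hd⟩ := d
  simp only [Fin.mk_lt_mk] at h1 h2 h3
  have k1 : a ≤ 2 := by omega
  have k2 : b ≤ 3 := by omega
  have k3 : c ≤ 4 := by omega
  have k4 : d ≤ 5 := by omega
  interval_cases a <;> interval_cases b <;> interval_cases c <;> interval_cases d <;>
    first | omega | assumption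

/-! ### Monopoles -/

section

variable {X : Type} {S : Set X} {m : X → X → X → X → ℤ}

/-- four of the points form a monopole -/
def Sx3 (m : X → X → X → X → ℤ) (p : Fin 6 → X) (a b c d : Fin 6) : Prop :=
  m (p a) (p b) (p c) (p d) ≠ 0

theorem sx3_12 (hM : Mo S m) {p : Fin 6 → X} (hp : ∀ i, p i ∈ S) (a b c d : Fin 6)
    (_h : b < a) : Sx3 m p a b c d ↔ Sx3 m p b a c d := by
  have h := (hM.alt _ (hp a) _ (hp b) _ (hp c) _ (hp d)).1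
  unfold Sx3
  rw [h, neg_ne_zero]

theorem sx3_23 (hM : Mo S m) {p : Fin 6 → X} (hp : ∀ i, p i ∈ S) (a b c d : Fin 6)
    (_h : c < b) : Sx3 m p a b c d ↔ Sx3 m p a c b d := by
  have h := (hM.alt _ (hp a) _ (hp b) _ (hp c) _ (hp d)).2.1
  unfold Sx3
  rw [h, neg_ne_zero]

theorem sx3_34 (hM : Mo S m) {p : Fin 6 → X} (hp : ∀ i, p i ∈ S) (a b c d : Fin 6)
    (_h : d < c) : Sx3 m p a b c d ↔ Sx3 m p a b d c := by
  have h := (hM.alt _ (hp a) _ (hp b) _ (hp c) _ (hp d)).2.2.1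
  unfold Sx3
  rw [h, neg_ne_zero]

theorem sx3_exch (hM : Mo S m) {p : Fin 6 → X} (hp : ∀ i, p i ∈ S) (a b c d e : Fin 6)
    (h : Sx3 m p a b c d) :
    (Sx3 m p e b c d ∧ ¬ Sx3 m p a e c d ∧ ¬ Sx3 m p a b e d ∧ ¬ Sx3 m p a b c e) ∨
    (¬ Sx3 m p e b c d ∧ Sx3 m p a e c d ∧ ¬ Sx3 m p a b e d ∧ ¬ Sx3 m p a b c e) ∨
    (¬ Sx3 m p e b c d ∧ ¬ Sx3 m p a e c d ∧ Sx3 m p a b e d ∧ ¬ Sx3 m p a b c e) ∨
    (¬ Sx3 m p e b c d ∧ ¬ Sx3 m p a e c d ∧ ¬ Sx3 m p a b e d ∧ Sx3 m p a b c e) := by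
  have h1 := hM.exc _ (hp a) _ (hp b) _ (hp c) _ (hp d) _ (hp e) h
  unfold Sx3
  simp only [ne_eq, not_not]
  exact h1

end

theorem sx3_c {A B C D : Prop} (h : (A ∧ ¬B ∧ ¬C ∧ ¬D) ∨ (¬A ∧ B ∧ ¬C ∧ ¬D) ∨
    (¬A ∧ ¬B ∧ C ∧ ¬D) ∨ (¬A ∧ ¬B ∧ ¬C ∧ D)) (nA : ¬A) (nB : ¬B) (nD : ¬D) : C := by
  rcases h with h | h | h | h
  · exact absurd h.1 nA
  · exact absurd h.2.1 nB
  · exact h.2.2.1
  · exact absurd h.2.2.2 nD

theorem sx3_ab {A B C D : Prop} (h : (A ∧ ¬B ∧ ¬C ∧ ¬D) ∨ (¬A ∧ B ∧ ¬C ∧ ¬D) ∨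
    (¬A ∧ ¬B ∧ C ∧ ¬D) ∨ (¬A ∧ ¬B ∧ ¬C ∧ D)) (a : A) (b : B) : False := by
  rcases h with h | h | h | h
  · exact h.2.1 b
  · exact h.1 a
  · exact h.1 a
  · exact h.1 a

theorem sx3_none {A B C D : Prop} (h : (A ∧ ¬B ∧ ¬C ∧ ¬D) ∨ (¬A ∧ B ∧ ¬C ∧ ¬D) ∨
    (¬A ∧ ¬B ∧ C ∧ ¬D) ∨ (¬A ∧ ¬B ∧ ¬C ∧ D)) (nA : ¬A) (nB : ¬B) (nC : ¬C) (nD : ¬D) :
    False := nC (sx3_c h nA nB nD)

theorem sx3_a {A B C D : Prop} (h : (A ∧ ¬B ∧ ¬C ∧ ¬D) ∨ (¬A ∧ B ∧ ¬C ∧ ¬D) ∨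
    (¬A ∧ ¬B ∧ C ∧ ¬D) ∨ (¬A ∧ ¬B ∧ ¬C ∧ D)) (a : A) : ¬B ∧ ¬C ∧ ¬D := by
  rcases h with h | h | h | h
  · exact h.2
  · exact absurd a h.1
  · exact absurd a h.1
  · exact absurd a h.1


theorem sx3_b {A B C D : Prop} (h : (A ∧ ¬B ∧ ¬C ∧ ¬D) ∨ (¬A ∧ B ∧ ¬C ∧ ¬D) ∨
    (¬A ∧ ¬B ∧ C ∧ ¬D) ∨ (¬A ∧ ¬B ∧ ¬C ∧ D)) (b : B) : ¬A ∧ ¬C ∧ ¬D := by
  rcases h with h | h | h | h
  · exact absurd b h.2.1
  · exact ⟨h.1, h.2.2⟩
  · exact absurd b h.2.1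
  · exact absurd b h.2.1

theorem sx3_c' {A B C D : Prop} (h : (A ∧ ¬B ∧ ¬C ∧ ¬D) ∨ (¬A ∧ B ∧ ¬C ∧ ¬D) ∨
    (¬A ∧ ¬B ∧ C ∧ ¬D) ∨ (¬A ∧ ¬B ∧ ¬C ∧ D)) (c : C) : ¬A ∧ ¬B ∧ ¬D := by
  rcases h with h | h | h | h
  · exact absurd c h.2.2.1
  · exact absurd c h.2.2.1
  · exact ⟨h.1, h.2.1, h.2.2.2⟩
  · exact absurd c h.2.2.1

/-! ### The pentagonal pyramid -/

section

variable {X : Type} {S : Set X} {m : X → X → X → X → ℤ}

/-- the values of the monopole number -/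
theorem sx3_val (hM : Mo S m) (q : Fin 6 → X) (hq : ∀ i, q i ∈ S)
    (e1 : Sx3 m q 0 1 3 5) (e2 : Sx3 m q 1 2 4 5) (e3 : Sx3 m q 0 2 3 5)
    (e4 : Sx3 m q 1 3 4 5) (e5 : Sx3 m q 0 2 4 5) :
    (¬ Sx3 m q 0 1 2 3 ∧ ¬ Sx3 m q 0 1 2 4 ∧ ¬ Sx3 m q 0 1 2 5 ∧ ¬ Sx3 m q 0 1 3 4 ∧
      ¬ Sx3 m q 0 1 4 5 ∧ ¬ Sx3 m q 0 2 3 4 ∧ ¬ Sx3 m q 0 3 4 5 ∧ ¬ Sx3 m q 1 2 3 4 ∧
      ¬ Sx3 m q 1 2 3 5 ∧ ¬ Sx3 m q 2 3 4 5) ∧
    m (q 1) (q 2) (q 4) (q 5) = m (q 0) (q 1) (q 3) (q 5) ∧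
    m (q 0) (q 2) (q 3) (q 5) = m (q 0) (q 1) (q 3) (q 5) ∧
    m (q 1) (q 3) (q 4) (q 5) = m (q 0) (q 1) (q 3) (q 5) ∧
    m (q 0) (q 2) (q 4) (q 5) = m (q 0) (q 1) (q 3) (q 5) := by
  have t0 := sx3_exch hM hq 1 2 4 5 3 e2
  have t1 := sx3_exch hM hq 0 2 3 5 4 e3
  have t2 := sx3_exch hM hq 0 1 3 5 4 e1
  have t3 := sx3_exch hM hq 1 2 4 5 0 e2
  have t4 := sx3_exch hM hq 0 1 3 5 2 e1
  simp (disch := decide) only [sx3_12 hM hq, sx3_23 hM hq, sx3_34 hM hq] at t0 t1 t2 t3 t4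
  obtain ⟨n2345, n1235, n1234⟩ := sx3_b t0 e4
  obtain ⟨-, n0345, n0234⟩ := sx3_c' t1 e5
  obtain ⟨-, n0145, n0134⟩ := sx3_a t2 e4
  obtain ⟨-, n0125, n0124⟩ := sx3_a t3 e5
  obtain ⟨-, -, n0123⟩ := sx3_b t4 e3
  refine ⟨⟨n0123, n0124, n0125, n0134, n0145, n0234, n0345, n1234, n1235, n2345⟩, ?_⟩
  unfold Sx3 at n0123 n0124 n0125 n0134 n0145 n0234 n0345 n1234 n1235 n2345
  simp only [ne_eq, not_not] at n0123 n0124 n0125 n0134 n0145 n0234 n0345 n1234 n1235 n2345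
  have c0 := hM.coc _ (hq 1) _ (hq 2) _ (hq 3) _ (hq 4) _ (hq 5)
  have c1 := hM.coc _ (hq 0) _ (hq 2) _ (hq 3) _ (hq 4) _ (hq 5)
  have c2 := hM.coc _ (hq 0) _ (hq 1) _ (hq 3) _ (hq 4) _ (hq 5)
  have c3 := hM.coc _ (hq 0) _ (hq 1) _ (hq 2) _ (hq 4) _ (hq 5)
  refine ⟨?_, ?_, ?_, ?_⟩ <;> linarith

/-- the right sign -/
theorem sx3_py (hPBS : T_PBS) (hM : Mo S m) (q : Fin 6 → X) (hq : ∀ i, q i ∈ S)
    (e1 : Sx3 m q 0 1 3 5) (e2 : Sx3 m q 1 2 4 5) (e3 : Sx3 m q 0 2 3 5)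
    (e4 : Sx3 m q 1 3 4 5) (e5 : Sx3 m q 0 2 4 5)
    (hs : m (q 0) (q 1) (q 3) (q 5) = -1) : IsPy m q := by
  obtain ⟨⟨n0123, n0124, n0125, n0134, n0145, n0234, n0345, n1234, n1235, n2345⟩, v2, v3, v4,
    v5⟩ := sx3_val hM q hq e1 e2 e3 e4 e5
  unfold Sx3 at n0123 n0124 n0125 n0134 n0145 n0234 n0345 n1234 n1235 n2345
  simp only [ne_eq, not_not] at n0123 n0124 n0125 n0134 n0145 n0234 n0345 n1234 n1235 n2345
  rw [hs] at v2 v3 v4 v5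
  intro i j k l
  have key := sx3_ext (D := fun a b c d => m (q a) (q b) (q c) (q d) - pen a b c d)
    (fun a b c d => by
      show m (q b) (q a) (q c) (q d) - pen b a c d = -(m (q a) (q b) (q c) (q d) - pen a b c d)
      rw [(hM.alt _ (hq a) _ (hq b) _ (hq c) _ (hq d)).1, (hPBS.1 a b c d).1]
      ring)
    (fun a b c d => by
      show m (q a) (q c) (q b) (q d) - pen a c b d = -(m (q a) (q b) (q c) (q d) - pen a b c d)
      rw [(hM.alt _ (hq a) _ (hq b) _ (hq c) _ (hq d)).2.1, (hPBS.1 a b c d).2.1]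
      ring)
    (fun a b c d => by
      show m (q a) (q b) (q d) (q c) - pen a b d c = -(m (q a) (q b) (q c) (q d) - pen a b c d)
      rw [(hM.alt _ (hq a) _ (hq b) _ (hq c) _ (hq d)).2.2.1, (hPBS.1 a b c d).2.2]
      ring)
    (sx3_inc (P := fun a b c d => m (q a) (q b) (q c) (q d) - pen a b c d = 0)
      ⟨by rw [n0123]; decide, by rw [n0124]; decide, by rw [n0125]; decide,
       by rw [n0134]; decide, by rw [hs]; decide, by rw [n0145]; decide,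
       by rw [n0234]; decide, by rw [v3]; decide, by rw [v5]; decide,
       by rw [n0345]; decide, by rw [n1234]; decide, by rw [n1235]; decide,
       by rw [v2]; decide, by rw [v4]; decide, by rw [n2345]; decide⟩) i j k l
  have key' : m (q i) (q j) (q k) (q l) - pen i j k l = 0 := key
  linarith

theorem sx3_pen (hPBS : T_PBS) (hM : Mo S m)
    (hN : ∀ p : Fin 6 → X, (∀ i, p i ∈ S) → ¬ IsPy m p) (q : Fin 6 → X) (hq : ∀ i, q i ∈ S)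
    (e1 : Sx3 m q 0 1 3 5) (e2 : Sx3 m q 1 2 4 5) (e3 : Sx3 m q 0 2 3 5)
    (e4 : Sx3 m q 1 3 4 5) (e5 : Sx3 m q 0 2 4 5) : False := by
  have hb := (hM.alt _ (hq 0) _ (hq 1) _ (hq 3) _ (hq 5)).2.2.2
  have hne : m (q 0) (q 1) (q 3) (q 5) ≠ 0 := e1
  rw [abs_le] at hb
  rcases (by omega : m (q 0) (q 1) (q 3) (q 5) = -1 ∨ m (q 0) (q 1) (q 3) (q 5) = 1) with h | h
  · exact hN q hq (sx3_py hPBS hM q hq e1 e2 e3 e4 e5 h)
  · obtain ⟨-, -, -, -, v5⟩ := sx3_val hM q hq e1 e2 e3 e4 e5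
    rw [h] at v5
    have hq' : ∀ i, q (![0, 4, 3, 2, 1, 5] i) ∈ S := fun i => hq _
    refine hN (fun i => q (![0, 4, 3, 2, 1, 5] i)) hq' (sx3_py hPBS hM _ hq'
      (show Sx3 m q 0 4 2 5 from ?_) (show Sx3 m q 4 3 1 5 from ?_)
      (show Sx3 m q 0 3 2 5 from ?_) (show Sx3 m q 4 2 1 5 from ?_)
      (show Sx3 m q 0 3 1 5 from ?_) (show m (q 0) (q 4) (q 2) (q 5) = -1 from ?_))
    · simp (disch := decide) only [sx3_12 hM hq, sx3_23 hM hq, sx3_34 hM hq]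
      assumption
    · simp (disch := decide) only [sx3_12 hM hq, sx3_23 hM hq, sx3_34 hM hq]
      assumption
    · simp (disch := decide) only [sx3_12 hM hq, sx3_23 hM hq, sx3_34 hM hq]
      assumption
    · simp (disch := decide) only [sx3_12 hM hq, sx3_23 hM hq, sx3_34 hM hq]
      assumption
    · simp (disch := decide) only [sx3_12 hM hq, sx3_23 hM hq, sx3_34 hM hq]
      assumption
    · rw [(hM.alt _ (hq 0) _ (hq 2) _ (hq 4) _ (hq 5)).2.1, v5]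

end

/-- SX3: six points without a pentagonal pyramid. -/
theorem pf_SX3 (hPBS : T_PBS) : T_SX3 := by
  intro X S m hM hN v hv w hw a ha b hb c hc z hz h1 h2
  by_contra h3
  obtain ⟨p, hpd⟩ : ∃ p : Fin 6 → X, p = ![v, w, a, b, c, z] := ⟨_, rfl⟩
  have hp : ∀ i, p i ∈ S := by
    rw [hpd]
    intro i
    fin_cases i <;> assumption
  have e15 : Sx3 m p 0 2 3 4 := by
    rw [hpd]
    exact h1
  have e05 : Sx3 m p 1 2 3 4 := by
    rw [hpd]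
    exact h2
  have e34 : Sx3 m p 0 1 2 5 := by
    rw [hpd]
    exact h3
  have v5 := sx3_exch hM hp 0 2 3 4 1 e15
  have v0 := sx3_exch hM hp 1 2 3 4 5 e05
  have v1 := sx3_exch hM hp 0 2 3 4 5 e15
  have v3 := sx3_exch hM hp 0 1 2 5 4 e34
  have v4 := sx3_exch hM hp 0 1 2 5 3 e34
  have v2 := sx3_exch hM hp 0 3 4 5 1
  simp (disch := decide) only [sx3_12 hM hp, sx3_23 hM hp, sx3_34 hM hp] at v5 v0 v1 v3 v4 v2
  -- the five points different from the last one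
  have w5 : ¬ Sx3 m p 0 1 3 4 ∧ ¬ Sx3 m p 0 1 2 4 ∧ ¬ Sx3 m p 0 1 2 3 := by
    rcases v5 with h | h | h | h
    · exact h.2
    · exact absurd e05 h.1
    · exact absurd e05 h.1
    · exact absurd e05 h.1
  obtain ⟨_, n35, n45⟩ := w5
  have hex : ∀ f : Fin 6 → Fin 6, Sx3 m p (f 0) (f 1) (f 2) (f 3) →
      Sx3 m p (f 1) (f 2) (f 3) (f 4) → Sx3 m p (f 2) (f 3) (f 4) (f 5) →
      Sx3 m p (f 3) (f 4) (f 5) (f 0) → Sx3 m p (f 4) (f 5) (f 0) (f 1) →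
      Sx3 m p (f 5) (f 0) (f 1) (f 2) → False :=
    fun f a b c d e g => hM.hex (fun i => p (f i)) (fun i => hp (f i)) a b c d e g
  have pen : ∀ f : Fin 6 → Fin 6, Sx3 m p (f 0) (f 1) (f 3) (f 5) →
      Sx3 m p (f 1) (f 2) (f 4) (f 5) → Sx3 m p (f 0) (f 2) (f 3) (f 5) →
      Sx3 m p (f 1) (f 3) (f 4) (f 5) → Sx3 m p (f 0) (f 2) (f 4) (f 5) → False :=
    fun f a b c d e => sx3_pen hPBS hM hN (fun i => p (f i)) (fun i => hp (f i)) a b c d e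
  rcases v0 with ⟨e01, n02, n03, n04⟩ | ⟨n01, e02, n03, n04⟩ | ⟨n01, n02, e03, n04⟩ |
    ⟨n01, n02, n03, e04⟩
  · -- two triangles
    have w1 : ¬ Sx3 m p 0 3 4 5 ∧ ¬ Sx3 m p 0 2 4 5 ∧ ¬ Sx3 m p 0 2 3 5 := by
      rcases v1 with h | h | h | h
      · exact h.2
      · exact absurd e01 h.1
      · exact absurd e01 h.1
      · exact absurd e01 h.1
    obtain ⟨_, n13, n14⟩ := w1
    have e23 : Sx3 m p 0 1 4 5 := sx3_c v3 n03 n13 n35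
    have e24 : Sx3 m p 0 1 3 5 := sx3_c v4 n04 n14 n45
    refine hM.ttt (fun i => p (![0, 1, 5, 2, 3, 4] i)) (fun i => hp _) (show Sx3 m p 0 1 5 2 from ?_)
      (show Sx3 m p 0 1 5 3 from ?_) (show Sx3 m p 0 1 5 4 from ?_) (show Sx3 m p 0 2 3 4 from e15)
      (show Sx3 m p 1 2 3 4 from e05) (show Sx3 m p 5 2 3 4 from ?_)
    all_goals
      simp (disch := decide) only [sx3_12 hM hp, sx3_23 hM hp, sx3_34 hM hp]
      assumption
  · -- the edge 0 2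
    rcases v1 with ⟨e01, _⟩ | ⟨_, e12, n13, n14⟩ | ⟨_, n12, e13, n14⟩ | ⟨_, n12, n13, e14⟩
    · exact absurd e01 n01
    · exact sx3_none v3 n03 n13 (sx3_a (v2 e12) e02).1 n35
    · have e24 : Sx3 m p 0 1 3 5 := sx3_c v4 n04 n14 n45
      refine hex ![0, 5, 1, 3, 4, 2] (show Sx3 m p 0 5 1 3 from ?_) (show Sx3 m p 5 1 3 4 from ?_)
        (show Sx3 m p 1 3 4 2 from ?_) (show Sx3 m p 3 4 2 0 from ?_) (show Sx3 m p 4 2 0 5 from ?_)
        (show Sx3 m p 2 0 5 1 from ?_)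
      all_goals
        simp (disch := decide) only [sx3_12 hM hp, sx3_23 hM hp, sx3_34 hM hp]
        assumption
    · have e23 : Sx3 m p 0 1 4 5 := sx3_c v3 n03 n13 n35
      refine hex ![0, 5, 1, 4, 3, 2] (show Sx3 m p 0 5 1 4 from ?_) (show Sx3 m p 5 1 4 3 from ?_)
        (show Sx3 m p 1 4 3 2 from ?_) (show Sx3 m p 4 3 2 0 from ?_) (show Sx3 m p 3 2 0 5 from ?_)
        (show Sx3 m p 2 0 5 1 from ?_)
      all_goals
        simp (disch := decide) only [sx3_12 hM hp, sx3_23 hM hp, sx3_34 hM hp]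
        assumption
  · -- the edge 0 3
    rcases v1 with ⟨e01, _⟩ | ⟨_, e12, n13, n14⟩ | ⟨_, n12, e13, n14⟩ | ⟨_, n12, n13, e14⟩
    · exact absurd e01 n01
    · have e24 : Sx3 m p 0 1 3 5 := sx3_c v4 n04 n14 n45
      refine hex ![1, 5, 0, 3, 4, 2] (show Sx3 m p 1 5 0 3 from ?_) (show Sx3 m p 5 0 3 4 from ?_)
        (show Sx3 m p 0 3 4 2 from ?_) (show Sx3 m p 3 4 2 1 from ?_) (show Sx3 m p 4 2 1 5 from ?_)
        (show Sx3 m p 2 1 5 0 from ?_)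
      all_goals
        simp (disch := decide) only [sx3_12 hM hp, sx3_23 hM hp, sx3_34 hM hp]
        assumption
    · exact sx3_ab v3 e03 e13
    · refine pen ![1, 3, 5, 4, 0, 2] (show Sx3 m p 1 3 4 2 from ?_) (show Sx3 m p 3 5 0 2 from ?_)
        (show Sx3 m p 1 5 4 2 from ?_) (show Sx3 m p 3 4 0 2 from ?_)
        (show Sx3 m p 1 5 0 2 from ?_)
      all_goals
        simp (disch := decide) only [sx3_12 hM hp, sx3_23 hM hp, sx3_34 hM hp]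
        assumption
  · -- the edge 0 4
    rcases v1 with ⟨e01, _⟩ | ⟨_, e12, n13, n14⟩ | ⟨_, n12, e13, n14⟩ | ⟨_, n12, n13, e14⟩
    · exact absurd e01 n01
    · have e23 : Sx3 m p 0 1 4 5 := sx3_c v3 n03 n13 n35
      refine hex ![1, 5, 0, 4, 3, 2] (show Sx3 m p 1 5 0 4 from ?_) (show Sx3 m p 5 0 4 3 from ?_)
        (show Sx3 m p 0 4 3 2 from ?_) (show Sx3 m p 4 3 2 1 from ?_) (show Sx3 m p 3 2 1 5 from ?_)
        (show Sx3 m p 2 1 5 0 from ?_)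
      all_goals
        simp (disch := decide) only [sx3_12 hM hp, sx3_23 hM hp, sx3_34 hM hp]
        assumption
    · refine pen ![1, 4, 5, 3, 0, 2] (show Sx3 m p 1 4 3 2 from ?_) (show Sx3 m p 4 5 0 2 from ?_)
        (show Sx3 m p 1 5 3 2 from ?_) (show Sx3 m p 4 3 0 2 from ?_)
        (show Sx3 m p 1 5 0 2 from ?_)
      all_goals
        simp (disch := decide) only [sx3_12 hM hp, sx3_23 hM hp, sx3_34 hM hp]
        assumption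
    · exact sx3_ab v4 e04 e14

end Pool.Agent.H13.FNC
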